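import Pool.Agent.W670.LL.Stm

set_option autoImplicit false

/-! Project LL, part R3: `r` and the endomorphism `s`. -/

namespace Pool.Agent.W685.LL

open WeierstrassCurve Pool.Agent.W670.LL

section
variable {K : Type*} [Field K] {e ρ x y : K}

theorem fac (heq : y ^ 2 = x ^ 3 + 6 * x ^ 2 - 3 * x) (h2 : (2 : K) ≠ 0) (hy : y ≠ 0) :
    ((x ^ 2 + 3) / (2 * y)) ^ 2 - 1 = (x + 3) * (x - 1) * (x ^ 2 - 6 * x - 3) / (4 * y ^ 2) := by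
  have h4 : (4 : K) ≠ 0 := by
    have : (4 : K) = 2 * 2 := by norm_num
    rw [this]; exact mul_ne_zero h2 h2
  have e1 : ((x ^ 2 + 3) / (2 * y)) ^ 2 = (x ^ 2 + 3) ^ 2 / (4 * y ^ 2) := by
    rw [div_pow]; congr 1; ring
  rw [e1, div_sub_one (mul_ne_zero h4 (pow_ne_zero 2 hy))]
  congr 1
  linear_combination (-4) * heq

theorem fac' (c : K) (h2 : (2 : K) ≠ 0) (hy : y ≠ 0) :
    ((x ^ 2 + 3) / (2 * y)) ^ 2 + c = ((x ^ 2 + 3) ^ 2 + 4 * c * y ^ 2) / (4 * y ^ 2) := by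
  have h4 : (4 : K) ≠ 0 := by
    have : (4 : K) = 2 * 2 := by norm_num
    rw [this]; exact mul_ne_zero h2 h2
  have e1 : ((x ^ 2 + 3) / (2 * y)) ^ 2 = (x ^ 2 + 3) ^ 2 / (4 * y ^ 2) := by
    rw [div_pow]; congr 1; ring
  rw [e1, div_add' _ _ _ (mul_ne_zero h4 (pow_ne_zero 2 hy))]
  congr 1
  ring

/-- the general form of the three identities -/
theorem gen {A e c δ : K} (h2 : (2 : K) ≠ 0) (h3 : (3 : K) ≠ 0) (hρ : ρ ^ 2 = -3)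
    (hy : y ≠ 0) (hx : x ≠ 1) (heq : y ^ 2 = x ^ 3 + 6 * x ^ 2 - 3 * x)
    (hq1 : x + 3 ≠ 0) (hq2 : x ^ 2 - 6 * x - 3 ≠ 0)
    (hC : (x * (x + 3) ^ 2 + 3 * e * (x - 1) ^ 2) ^ 2 - 9 * δ * (x - 1) ^ 4 = A *
      ((x ^ 2 + 3) ^ 2 + 4 * c * y ^ 2)) :
    ((sx x - e) ^ 2 - δ) / (2 * sy ρ x y) =
      A / (2 * y) * (((x ^ 2 + 3) / (2 * y)) ^ 2 + c) /
        (ρ * (((x ^ 2 + 3) / (2 * y)) ^ 2 - 1)) := by
  have h4 : (4 : K) ≠ 0 := by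
    have : (4 : K) = 2 * 2 := by norm_num
    rw [this]; exact mul_ne_zero h2 h2
  have hx' : x - 1 ≠ 0 := sub_ne_zero.2 hx
  have hρ0 : ρ ≠ 0 := by
    rintro rfl
    apply h3
    linear_combination hρ
  have e0 : (sx x - e) ^ 2 - δ =
      ((x * (x + 3) ^ 2 + 3 * e * (x - 1) ^ 2) ^ 2 - 9 * δ * (x - 1) ^ 4) / (9 * (x - 1) ^ 4) := by
    have h9 : (9 : K) ≠ 0 := by
      have : (9 : K) = 3 * 3 := by norm_num
      rw [this]; exact mul_ne_zero h3 h3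
    unfold sx
    rw [eq_div_iff (mul_ne_zero h9 (pow_ne_zero 4 hx'))]
    have : (-(x * (x + 3) ^ 2) / (3 * (x - 1) ^ 2) - e) =
        -(x * (x + 3) ^ 2 + 3 * e * (x - 1) ^ 2) / (3 * (x - 1) ^ 2) := by
      rw [div_sub' (mul_ne_zero h3 (pow_ne_zero 2 hx'))]
      congr 1
      ring
    rw [this, div_pow, sub_mul]
    have h5 : (-(x * (x + 3) ^ 2 + 3 * e * (x - 1) ^ 2)) ^ 2 / (3 * (x - 1) ^ 2) ^ 2 *
        (9 * (x - 1) ^ 4) = (x * (x + 3) ^ 2 + 3 * e * (x - 1) ^ 2) ^ 2 := by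
      rw [div_mul_eq_mul_div, div_eq_iff (pow_ne_zero 2 (mul_ne_zero h3 (pow_ne_zero 2 hx')))]
      ring
    rw [h5]
    ring
  rw [e0, hC, fac heq h2 hy, fac' c h2 hy]
  unfold sy
  have h9 : (9 : K) ≠ 0 := by
    have : (9 : K) = 3 * 3 := by norm_num
    rw [this]; exact mul_ne_zero h3 h3
  obtain ⟨Q, hQ⟩ : ∃ Q, Q = x ^ 2 - 6 * x - 3 := ⟨_, rfl⟩
  obtain ⟨u, hu⟩ : ∃ u, u = x - 1 := ⟨_, rfl⟩
  obtain ⟨v, hv⟩ : ∃ v, v = x + 3 := ⟨_, rfl⟩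
  obtain ⟨B, hB⟩ : ∃ B, B = (x ^ 2 + 3) ^ 2 + 4 * c * y ^ 2 := ⟨_, rfl⟩
  rw [← hQ] at hq2
  rw [← hu] at hx'
  rw [← hv] at hq1
  rw [← hQ, ← hu, ← hv, ← hB]
  rw [div_mul_div_comm, mul_div_assoc', mul_div_assoc', div_div_div_eq, div_div_div_eq,
    div_eq_div_iff]
  · linear_combination (24 * A * B * u ^ 4 * v * Q * y ^ 3) * hρ
  all_goals
    have hu4 : u ^ 4 ≠ 0 := pow_ne_zero 4 hx'
    have hy2 : y ^ 2 ≠ 0 := pow_ne_zero 2 hy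
    simp only [ne_eq, mul_eq_zero, neg_eq_zero, not_or]
    tauto

end

theorem rs : S_RS := by
  intro K _ _ e₁ e₃ ρ hR h3 hρ s hs x y h hy hx R hRR x₂ hx₂ hx₂1
  obtain ⟨h2, n1, n3, hne, ha, hb⟩ := hR
  obtain ⟨-, -, hs3⟩ := hs
  have heq : y ^ 2 = x ^ 3 + 6 * x ^ 2 - 3 * x := by
    have := eqn h
    rw [this]; ring
  have he3 : e₃ = -6 - e₁ := by linear_combination ha
  have he1 : e₁ = -6 - e₃ := by linear_combination ha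
  have h1q : e₁ ^ 2 + 6 * e₁ - 3 = 0 := by rw [he3] at hb; linear_combination hb
  have h3q : e₃ ^ 2 + 6 * e₃ - 3 = 0 := by rw [he1] at hb; linear_combination hb
  have hr2 : r2 e₁ e₃ R = (x ^ 2 + 3) / (2 * y) := by
    rw [hRR]; simp only [r2, rr]; rw [← hb]; ring
  have hf := fac heq h2 hy
  rw [hr2] at hx₂
  rw [← hx₂] at hf
  have hne0 : x₂ - 1 ≠ 0 := sub_ne_zero.2 hx₂1
  have hq : x + 3 ≠ 0 ∧ x ^ 2 - 6 * x - 3 ≠ 0 := by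
    constructor
    · intro h'; apply hne0; rw [hf, h']; ring
    · intro h'; apply hne0; rw [hf, h']; ring
  obtain ⟨hq1, hq2⟩ := hq
  have hx' : x - 1 ≠ 0 := sub_ne_zero.2 hx
  have hρ0 : ρ ≠ 0 := by
    rintro rfl
    apply h3
    linear_combination hρ
  have hsy : sy ρ x y ≠ 0 := by
    unfold sy
    refine div_ne_zero (neg_ne_zero.2 (mul_ne_zero (mul_ne_zero hy hq1) hq2))
      (mul_ne_zero (mul_ne_zero h3 hρ0) (pow_ne_zero 3 hx'))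
  obtain ⟨h', hsR⟩ := hs3 x y h hx
  rw [← hRR] at hsR
  refine ⟨⟨_, _, h', hsR, hsy⟩, ?_, ?_, ?_⟩
  · rw [hsR, hx₂]
    have e1 : r3 e₁ e₃ R = ((x - e₃) ^ 2 - e₃ * (e₃ - e₁)) / (2 * y) := by rw [hRR]; rfl
    rw [e1]
    have e2 : r1 e₁ e₃ (Affine.Point.some (sx x) (sy ρ x y) h' : Pt (6 : K) (-3)) =
      ((sx x - e₁) ^ 2 - e₁ * (e₁ - e₃)) / (2 * sy ρ x y) := rfl
    rw [e2]
    refine gen h2 h3 hρ hy hx heq hq1 hq2 ?_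
    rw [he3]
    linear_combination ((-16)*x^4 + (4)*x^3*e₁ + (-12)*x^3 + (24)*x^2*e₁ + (-24)*x^2 +
      (-12)*x*e₁ + (36)*x) * h1q -
      ((x - (-6 - e₁)) ^ 2 - (-6 - e₁) * ((-6 - e₁) - e₁)) * 4 * e₁ * heq
  · rw [hsR, hx₂]
    have e1 : r1 e₁ e₃ R = ((x - e₁) ^ 2 - e₁ * (e₁ - e₃)) / (2 * y) := by rw [hRR]; rfl
    rw [e1]
    have e2 : r3 e₁ e₃ (Affine.Point.some (sx x) (sy ρ x y) h' : Pt (6 : K) (-3)) =
      ((sx x - e₃) ^ 2 - e₃ * (e₃ - e₁)) / (2 * sy ρ x y) := rfl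
    rw [e2]
    refine gen h2 h3 hρ hy hx heq hq1 hq2 ?_
    rw [he1]
    linear_combination ((-16)*x^4 + (4)*x^3*e₃ + (-12)*x^3 + (24)*x^2*e₃ + (-24)*x^2 +
      (-12)*x*e₃ + (36)*x) * h3q -
      ((x - (-6 - e₃)) ^ 2 - (-6 - e₃) * ((-6 - e₃) - e₃)) * 4 * e₃ * heq
  · rw [hsR, hx₂, hr2]
    have e2 : r2 e₁ e₃ (Affine.Point.some (sx x) (sy ρ x y) h' : Pt (6 : K) (-3)) =
      ((sx x - 0) ^ 2 - e₁ * e₃) / (2 * sy ρ x y) := rfl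
    rw [e2]
    refine gen h2 h3 hρ hy hx heq hq1 hq2 ?_
    rw [← hb]
    linear_combination - (x ^ 2 + 3) * 12 * heq

end Pool.Agent.W685.LL

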